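import Pool.Agent.H33.LawFinal

/-!
# The positivity of law probabilities depends on the random walk measure

Full (affirmative) answer to Q1 of `MP_b50549_al`. The definitions (`walk`, `lawProb`, `lawPr`,
`IsRandomWalkMeasure`) are in `Pool.Agent.H33.LawDefs`.

The example is `G = S₃ ≀ ℤ` with the word `w = [[x, y], x¹⁰⁰ y⁻¹⁰⁰ [z, u] y¹⁰⁰ x⁻¹⁰⁰]`. For the
symmetric switch-walk-switch walk `ν` the supports of `[x, y]` and of the conjugate of `[z, u]` are
disjoint with probability at least `2/45` for every `n ≥ 1`; for the walk `μ` drifting to the right the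
two supports overlap in a long interval on which the lamps are independent and uniform, and the
probability tends to `0`.
-/

set_option autoImplicit false

namespace Pool.Agent.Results.MP_b50549_al.DriftZero

open Pool.Agent.H33.Law

/-- There are a finitely generated group `G`, a (nontrivial) word `w` and two random walk measures
`μ`, `ν` on `G` such that `Pr_μ(w = 1 on G) = 0` and `Pr_ν(w = 1 on G) > 0`; moreover `ν` is
symmetric. -/
theorem result : ∃ (G : Type) (_ : Group G) (d : ℕ) (w : FreeGroup (Fin d)) (μ ν : PMF G),
    Group.FG G ∧ w ≠ 1 ∧ IsRandomWalkMeasure μ ∧ IsRandomWalkMeasure ν ∧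
      (∀ g : G, ν g⁻¹ = ν g) ∧ lawPr μ w = 0 ∧ 0 < lawPr ν w :=
  main

end Pool.Agent.Results.MP_b50549_al.DriftZero
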